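import Mathlib

set_option autoImplicit false

namespace Pool.Agent.Results.MP_e6b4b8_nt.NoLongRuns

/-- Among 14 consecutive integers one is `7` or `18` mod `25`, so `25 ∣ m^2+1` there. -/
lemma exists_bad (n : ℕ) : ∃ j < 14, 25 ∣ (n + j) ^ 2 + 1 := by
  have h : ∀ r < 25, ∃ j < 14, 25 ∣ (r + j) ^ 2 + 1 := by decide
  obtain ⟨j, hj, hd⟩ := h (n % 25) (Nat.mod_lt _ (by norm_num))
  refine ⟨j, hj, ?_⟩
  have h1 : (n + j) ^ 2 + 1 ≡ (n % 25 + j) ^ 2 + 1 [MOD 25] :=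
    Nat.ModEq.add_right 1 (Nat.ModEq.pow 2 (Nat.ModEq.add_right j (Nat.mod_modEq n 25).symm))
  exact (h1.dvd_iff dvd_rfl).mpr hd

theorem result :
    (¬ ∀ k : ℕ, 0 < k →
      Set.Infinite {n : ℕ | ∀ j < k, ArithmeticFunction.moebius ((n + j) ^ 2 + 1) = 1}) ∧
    ∀ k : ℕ, 14 ≤ k →
      {n : ℕ | ∀ j < k, ArithmeticFunction.moebius ((n + j) ^ 2 + 1) = 1} = ∅ := by
  have key : ∀ k : ℕ, 14 ≤ k →
      {n : ℕ | ∀ j < k, ArithmeticFunction.moebius ((n + j) ^ 2 + 1) = 1} = ∅ := by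
    intro k hk
    ext n
    simp only [Set.mem_setOf_eq, Set.mem_empty_iff_false, iff_false]
    intro h
    obtain ⟨j, hj, hd⟩ := exists_bad n
    have h1 := h j (by omega)
    have hns : ¬ Squarefree ((n + j) ^ 2 + 1) := by
      intro hs
      have h5 : 5 * 5 ∣ (n + j) ^ 2 + 1 := hd
      have := hs 5 h5
      rw [Nat.isUnit_iff] at this
      omega
    rw [ArithmeticFunction.moebius_eq_zero_of_not_squarefree hns] at h1
    exact absurd h1 (by norm_num)
  refine ⟨?_, key⟩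
  intro h
  have := h 14 (by norm_num)
  rw [key 14 le_rfl] at this
  exact Set.not_infinite.mpr Set.finite_empty this

end Pool.Agent.Results.MP_e6b4b8_nt.NoLongRuns
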