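import Mathlib
import Pool.Agent.H411R3.SqfPairs

set_option autoImplicit false

namespace Pool.Agent.Results.MP_e6b4b8_nt.RunsOfLengthOne

open Finset Filter Pool.Agent.H411R3.SqfPairs
open ArithmeticFunction (moebius)

/-- if both neighbours are squarefree then one of three values has `μ = 1`. -/
lemma one_of_three {t : ℕ} (h : Good t) :
    moebius ((5 * t) ^ 2 + 1) = 1 ∨ moebius ((5 * t + 1) ^ 2 + 1) = 1 ∨
      moebius (((5 * t) ^ 2 + 5 * t + 1) ^ 2 + 1) = 1 := by
  obtain ⟨h1, h2⟩ := h
  have hid : ((5 * t) ^ 2 + 5 * t + 1) ^ 2 + 1 = ((5 * t) ^ 2 + 1) * ((5 * t + 1) ^ 2 + 1) := by ring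
  have hcop : Nat.Coprime ((5 * t) ^ 2 + 1) ((5 * t + 1) ^ 2 + 1) := by
    rw [← Nat.isCoprime_iff_coprime]
    refine ⟨1 - 5 * t ^ 2 * (10 * t + 3), 5 * t ^ 2 * (10 * t - 1), ?_⟩
    push_cast
    ring
  rcases ArithmeticFunction.moebius_eq_or ((5 * t) ^ 2 + 1) with e | e | e
  · exact absurd e (ArithmeticFunction.moebius_ne_zero_iff_squarefree.mpr h1)
  · left; exact e
  · rcases ArithmeticFunction.moebius_eq_or ((5 * t + 1) ^ 2 + 1) with e' | e' | e'
    · exact absurd e' (ArithmeticFunction.moebius_ne_zero_iff_squarefree.mpr h2)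
    · right; left; exact e'
    · right; right
      rw [hid, ArithmeticFunction.isMultiplicative_moebius.map_mul_of_coprime hcop, e, e']
      norm_num

lemma pi_small : ∀ᶠ T : ℕ in atTop, (Nat.primeCounting (5 * T + 2) : ℝ) ≤ T / 12 := by
  have h1 := Chebyshev.eventually_primeCounting_le (ε := 1) one_pos
  have h2 : ∀ᶠ x : ℝ in atTop, (200 : ℝ) ≤ Real.log x := Real.tendsto_log_atTop.eventually_ge_atTop 200
  have h3 : Tendsto (fun T : ℕ => ((5 * T + 2 : ℕ) : ℝ)) atTop atTop := by
    apply tendsto_natCast_atTop_atTop.comp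
    apply tendsto_atTop_mono (f := fun T : ℕ => T) (fun T => by omega) tendsto_id
  have h12 := h3.eventually (h1.and h2)
  filter_upwards [h12, eventually_ge_atTop 4] with T hT hT4
  obtain ⟨ha, hb⟩ := hT
  rw [Nat.floor_natCast] at ha
  refine ha.trans ?_
  have hlog4 : Real.log 4 ≤ 2 := by
    have : Real.log 4 = 2 * Real.log 2 := by
      rw [show (4 : ℝ) = 2 ^ 2 by norm_num, Real.log_pow]; norm_num
    have := Real.log_two_lt_d9
    linarith
  have hTr : (4 : ℝ) ≤ T := by exact_mod_cast hT4
  rw [div_le_iff₀ (by linarith)]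
  push_cast
  have : (Real.log 4 + 1) * (5 * (T : ℝ) + 2) ≤ 3 * (5 * (T : ℝ) + 2) := by
    apply mul_le_mul_of_nonneg_right (by linarith) (by positivity)
  push_cast at hb
  nlinarith

theorem result :
    {n : ℕ | moebius (n ^ 2 + 1) = 1}.Infinite ∧
    ∃ c : ℝ, 0 < c ∧ ∀ᶠ N : ℕ in atTop,
      c * Real.sqrt N ≤ (((range N).filter (fun n => moebius (n ^ 2 + 1) = 1)).card : ℝ) := by
  have key : ∃ c : ℝ, 0 < c ∧ ∀ᶠ N : ℕ in atTop,
      c * Real.sqrt N ≤ (((range N).filter (fun n => moebius (n ^ 2 + 1) = 1)).card : ℝ) := by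
    refine ⟨1 / 90, by norm_num, ?_⟩
    have hsq : Tendsto (fun N : ℕ => Nat.sqrt N / 5) atTop atTop := by
      rw [tendsto_atTop_atTop]
      intro b
      refine ⟨(5 * b) ^ 2, fun N hN => ?_⟩
      have : 5 * b ≤ Nat.sqrt N := by
        rw [Nat.le_sqrt']; exact hN
      omega
    filter_upwards [hsq.eventually pi_small, hsq.eventually (eventually_ge_atTop 2)] with N hpi hT2
    set T := Nat.sqrt N / 5 with hT
    classical
    set G := (range T).filter (fun t => Good t) with hG
    have hGcard : (T : ℝ) / 3 ≤ G.card := by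
      have h1 := bad_card T
      have h2 : G.card + ((range T).filter (fun t => ¬ Good t)).card = T := by
        rw [hG, card_filter_add_card_filter_not]; simp
      have h3 : (G.card : ℝ) + (((range T).filter (fun t => ¬ Good t)).card : ℝ) = T := by exact_mod_cast h2
      have e1 : (((range T).filter (fun t => ¬ Good t)).card : ℝ) ≤ T / 3 + 4 * (T / 12) := by
        refine le_trans ?_ (h1.trans ?_)
        · apply le_of_eq; congr!
        · linarith
      linarith
    have h25 : 25 * T ^ 2 ≤ N := by
      have h1 : 5 * T ≤ Nat.sqrt N := by omega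
      have h2 : Nat.sqrt N ^ 2 ≤ N := Nat.sqrt_le' N
      nlinarith
    set R := (range N).filter (fun n => moebius (n ^ 2 + 1) = 1) with hR
    set A0 := G.filter (fun t => moebius ((5 * t) ^ 2 + 1) = 1) with hA0
    set A1 := G.filter (fun t => moebius ((5 * t + 1) ^ 2 + 1) = 1) with hA1
    set A2 := G.filter (fun t => moebius (((5 * t) ^ 2 + 5 * t + 1) ^ 2 + 1) = 1) with hA2
    have hcover : G ⊆ (A0 ∪ A1) ∪ A2 := by
      intro t ht
      have hg : Good t := by rw [hG, mem_filter] at ht; exact ht.2
      rcases one_of_three hg with h | h | h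
      · exact mem_union_left _ (mem_union_left _ (mem_filter.mpr ⟨ht, h⟩))
      · exact mem_union_left _ (mem_union_right _ (mem_filter.mpr ⟨ht, h⟩))
      · exact mem_union_right _ (mem_filter.mpr ⟨ht, h⟩)
    have hTlt : ∀ t ∈ G, t < T := by
      intro t ht
      rw [hG, mem_filter, mem_range] at ht
      exact ht.1
    have hbd : ∀ t, t < T → (5 * t) ^ 2 + 5 * t + 1 < N := by
      intro t ht
      have h1 : t + 1 ≤ T := ht
      have h2 : 25 * (t + 1) ^ 2 ≤ 25 * T ^ 2 := by
        apply Nat.mul_le_mul_left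
        exact Nat.pow_le_pow_left h1 2
      nlinarith
    have c0 : A0.card ≤ R.card := by
      apply card_le_card_of_injOn (fun t => 5 * t)
      · intro t ht
        have ht' := mem_filter.mp (mem_coe.mp ht)
        rw [hR, mem_coe, mem_filter, mem_range]
        have := hbd t (hTlt t ht'.1)
        exact ⟨by nlinarith, ht'.2⟩
      · intro a _ b _ h
        simpa using h
    have c1 : A1.card ≤ R.card := by
      apply card_le_card_of_injOn (fun t => 5 * t + 1)
      · intro t ht
        have ht' := mem_filter.mp (mem_coe.mp ht)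
        rw [hR, mem_coe, mem_filter, mem_range]
        have := hbd t (hTlt t ht'.1)
        refine ⟨?_, ht'.2⟩
        show 5 * t + 1 < N
        have h1 : 0 ≤ (5 * t) ^ 2 := Nat.zero_le _
        omega
      · intro a _ b _ h
        simpa using h
    have c2 : A2.card ≤ R.card := by
      apply card_le_card_of_injOn (fun t => (5 * t) ^ 2 + 5 * t + 1)
      · intro t ht
        have ht' := mem_filter.mp (mem_coe.mp ht)
        rw [hR, mem_coe, mem_filter, mem_range]
        exact ⟨hbd t (hTlt t ht'.1), ht'.2⟩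
      · intro a _ b _ h
        have h' : (5 * a) ^ 2 + 5 * a + 1 = (5 * b) ^ 2 + 5 * b + 1 := h
        rcases lt_trichotomy a b with hl | hl | hl
        · exfalso; nlinarith
        · exact hl
        · exfalso; nlinarith
    have hsum : G.card ≤ 3 * R.card := by
      have h1 := card_le_card hcover
      have h2 := card_union_le (A0 ∪ A1) A2
      have h3 := card_union_le A0 A1
      omega
    have hsumr : (G.card : ℝ) ≤ 3 * R.card := by exact_mod_cast hsum
    have hsqrt : Real.sqrt N ≤ 10 * T := by
      have h1 : N < (Nat.sqrt N + 1) ^ 2 := Nat.lt_succ_sqrt' N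
      have h2 : Nat.sqrt N + 1 ≤ 10 * T := by omega
      have h3 : (N : ℝ) ≤ (10 * T : ℝ) ^ 2 := by
        have : N ≤ (10 * T) ^ 2 := h1.le.trans (Nat.pow_le_pow_left h2 2)
        exact_mod_cast this
      rw [Real.sqrt_le_left (by positivity)]
      exact h3
    linarith
  refine ⟨?_, key⟩
  intro hfin
  obtain ⟨c, hc, hev⟩ := key
  have hbound : ∀ N : ℕ, (((range N).filter (fun n => moebius (n ^ 2 + 1) = 1)).card : ℝ) ≤ hfin.toFinset.card := by
    intro N
    have : ((range N).filter (fun n => moebius (n ^ 2 + 1) = 1)).card ≤ hfin.toFinset.card := by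
      apply card_le_card
      intro n hn
      rw [mem_filter] at hn
      rw [Set.Finite.mem_toFinset]
      exact hn.2
    exact_mod_cast this
  have htend : Tendsto (fun N : ℕ => c * Real.sqrt N) atTop atTop :=
    (Real.tendsto_sqrt_atTop.comp tendsto_natCast_atTop_atTop).const_mul_atTop hc
  obtain ⟨N, h1, h2⟩ := (hev.and (htend.eventually_gt_atTop (hfin.toFinset.card : ℝ))).exists
  have := hbound N
  linarith

end Pool.Agent.Results.MP_e6b4b8_nt.RunsOfLengthOne
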